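import Mathlib

/-!
Every Banach space is one-complemented in a Banach space with property alpha.
-/

set_option autoImplicit false

namespace Pool.Agent.V11102.PA

open scoped ENNReal
open Filter Topology

/-- `ℓ₁(I)` -/
abbrev L1 (𝕜 : Type*) [RCLike 𝕜] (I : Type*) : Type _ := lp (fun _ : I => 𝕜) 1

section L1

variable {𝕜 : Type*} [RCLike 𝕜] {I : Type*}

theorem summable_norm (a : L1 𝕜 I) : Summable fun i => ‖a i‖ := by
  have := (lp.memℓp a).summable (by norm_num)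
  simpa using this

theorem norm_eq (a : L1 𝕜 I) : ‖a‖ = ∑' i, ‖a i‖ := by
  have := lp.norm_rpow_eq_tsum (p := 1) (by norm_num) a
  simpa using this

variable {F : Type*} [NormedAddCommGroup F] [NormedSpace 𝕜 F]

theorem summable_smul [CompleteSpace F] (z : I → F) (hz : ∀ i, ‖z i‖ ≤ 1) (a : L1 𝕜 I) :
    Summable fun i => a i • z i := by
  apply Summable.of_norm_bounded (summable_norm a)
  intro i
  rw [norm_smul]
  exact mul_le_of_le_one_right (norm_nonneg _) (hz i)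

/-- the operator on `ℓ₁(I)` with given values on the unit vectors -/
noncomputable def ofBasis [CompleteSpace F] (z : I → F) (hz : ∀ i, ‖z i‖ ≤ 1) :
    L1 𝕜 I →L[𝕜] F :=
  LinearMap.mkContinuous
    { toFun := fun a => ∑' i, a i • z i
      map_add' := fun a b => by
        rw [← (summable_smul z hz a).tsum_add (summable_smul z hz b)]
        apply tsum_congr
        intro i
        show (a i + b i) • z i = _
        rw [add_smul]
      map_smul' := fun c a => by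
        rw [RingHom.id_apply, ← (summable_smul z hz a).tsum_const_smul c]
        apply tsum_congr
        intro i
        show (c * a i) • z i = _
        rw [mul_smul] } 1 (fun a => by
      rw [one_mul, norm_eq]
      show ‖∑' i, a i • z i‖ ≤ _
      have h1 : Summable fun i => ‖a i • z i‖ := by
        apply Summable.of_nonneg_of_le (fun i => norm_nonneg _) _ (summable_norm a)
        intro i
        rw [norm_smul]
        exact mul_le_of_le_one_right (norm_nonneg _) (hz i)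
      refine (norm_tsum_le_tsum_norm h1).trans (h1.tsum_le_tsum ?_ (summable_norm a))
      intro i
      rw [norm_smul]
      exact mul_le_of_le_one_right (norm_nonneg _) (hz i))

variable [DecidableEq I]

theorem ofBasis_single [CompleteSpace F] (z : I → F) (hz : ∀ i, ‖z i‖ ≤ 1) (i : I) (c : 𝕜) :
    ofBasis z hz (lp.single 1 i c) = c • z i := by
  show ∑' j, (lp.single 1 i c : L1 𝕜 I) j • z j = _
  rw [tsum_eq_single i]
  · rw [lp.single_apply_self]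
  · intro j hj
    rw [lp.single_apply_ne _ _ _ hj, zero_smul]

/-- the norm of an operator on `ℓ₁` is determined by the unit vectors -/
theorem norm_le_of_basis (T : L1 𝕜 I →L[𝕜] F) {C : ℝ}
    (h : ∀ i, ‖T (lp.single 1 i (1 : 𝕜))‖ ≤ C) (a : L1 𝕜 I) : ‖T a‖ ≤ C * ‖a‖ := by
  have h1 := (lp.hasSum_single (p := 1) (by norm_num) a).mapL T
  have h2 : HasSum (fun i => C * ‖a i‖) (C * ‖a‖) := by
    rw [norm_eq]
    exact (summable_norm a).hasSum.mul_left C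
  apply h1.norm_le_of_bounded h2
  intro i
  have h3 : (lp.single 1 i (a i) : L1 𝕜 I) = a i • lp.single 1 i (1 : 𝕜) := by
    rw [← lp.single_smul, smul_eq_mul, mul_one]
  rw [h3, map_smul, norm_smul, mul_comm]
  exact mul_le_mul_of_nonneg_right (h i) (norm_nonneg _)

end L1

section Quot

variable {𝕜 : Type*} [RCLike 𝕜] {M : Type*} [NormedAddCommGroup M] [NormedSpace 𝕜 M]
  (N : Submodule 𝕜 M) [hN : IsClosed (N : Set M)] {F : Type*} [NormedAddCommGroup F]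
  [NormedSpace 𝕜 F]

theorem lift_bound (f : M →L[𝕜] F) (hf : ∀ a ∈ N, f a = 0) {C : ℝ} (hC : 0 ≤ C)
    (h : ∀ a, ‖f a‖ ≤ C * ‖a‖) (x : M ⧸ N) :
    ‖N.liftQ (f : M →ₗ[𝕜] F) (fun a ha => hf a ha) x‖ ≤ C * ‖x‖ := by
  apply le_of_forall_pos_le_add
  intro ε hε
  obtain ⟨a, rfl, ha⟩ := Submodule.Quotient.norm_mk_lt x (show 0 < ε / (C + 1) by positivity)
  show ‖f a‖ ≤ _
  refine (h a).trans ?_
  have h1 : C * ‖a‖ ≤ C * (‖(Submodule.Quotient.mk a : M ⧸ N)‖ + ε / (C + 1)) :=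
    mul_le_mul_of_nonneg_left ha.le hC
  have h2 : C * (ε / (C + 1)) ≤ ε := by
    rw [mul_div_assoc', div_le_iff₀ (by positivity)]
    nlinarith
  linarith

/-- the operator induced on a quotient -/
noncomputable def lift (f : M →L[𝕜] F) (hf : ∀ a ∈ N, f a = 0) {C : ℝ} (hC : 0 ≤ C)
    (h : ∀ a, ‖f a‖ ≤ C * ‖a‖) : (M ⧸ N) →L[𝕜] F :=
  LinearMap.mkContinuous (N.liftQ (f : M →ₗ[𝕜] F) (fun a ha => hf a ha)) C
    (lift_bound N f hf hC h)

theorem lift_mk (f : M →L[𝕜] F) (hf : ∀ a ∈ N, f a = 0) {C : ℝ} (hC : 0 ≤ C)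
    (h : ∀ a, ‖f a‖ ≤ C * ‖a‖) (a : M) :
    lift N f hf hC h (Submodule.Quotient.mk a) = f a := rfl

theorem norm_lift_le (f : M →L[𝕜] F) (hf : ∀ a ∈ N, f a = 0) {C : ℝ} (hC : 0 ≤ C)
    (h : ∀ a, ‖f a‖ ≤ C * ‖a‖) : ‖lift N f hf hC h‖ ≤ C :=
  LinearMap.mkContinuous_norm_le _ hC _

end Quot

section Envelope

variable (𝕜 : Type*) [RCLike 𝕜] (E : Type*) [NormedAddCommGroup E] [NormedSpace 𝕜 E]
  [CompleteSpace E]

/-- unit vectors with a sign -/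
abbrev Ix : Type _ := {x : E // ‖x‖ = 1} × Bool

/-- the natural map `ℓ₁ → E` -/
noncomputable def Phi : L1 𝕜 (Ix E) →L[𝕜] E :=
  ofBasis (fun i : Ix E => i.1.1) (fun i => i.1.2.le)

/-- evaluation -/
noncomputable def ev (i : Ix E) : L1 𝕜 (Ix E) →L[𝕜] 𝕜 :=
  LinearMap.mkContinuous
    { toFun := fun a => a i
      map_add' := fun _ _ => rfl
      map_smul' := fun _ _ => rfl } 1 (fun a => by
        rw [one_mul]
        exact lp.norm_apply_le_norm (by norm_num) a i)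

theorem ev_apply (i : Ix E) (a : L1 𝕜 (Ix E)) : ev 𝕜 E i a = a i := rfl

/-- the kernel -/
noncomputable def Ker : Submodule 𝕜 (L1 𝕜 (Ix E)) where
  carrier := {a | Phi 𝕜 E a = 0 ∧ ∀ g, ev 𝕜 E (g, true) a = ev 𝕜 E (g, false) a}
  add_mem' := fun ha hb => ⟨by rw [map_add, ha.1, hb.1, add_zero],
    fun g => by rw [map_add, map_add, ha.2, hb.2]⟩
  zero_mem' := ⟨map_zero _, fun g => by rw [map_zero, map_zero]⟩
  smul_mem' := fun c a ha => ⟨by rw [map_smul, ha.1, smul_zero],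
    fun g => by rw [map_smul, map_smul, ha.2]⟩

instance isClosed_Ker : IsClosed (Ker 𝕜 E : Set (L1 𝕜 (Ix E))) := by
  have h : (Ker 𝕜 E : Set (L1 𝕜 (Ix E))) = {a | Phi 𝕜 E a = 0} ∩
      ⋂ g, {a | ev 𝕜 E (g, true) a = ev 𝕜 E (g, false) a} := by
    ext a
    simp only [Set.mem_inter_iff, Set.mem_iInter, Set.mem_ofPred_eq]
    rfl
  rw [h]
  apply IsClosed.inter
  · exact isClosed_eq (Phi 𝕜 E).continuous continuous_const
  · apply isClosed_iInter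
    intro g
    exact isClosed_eq (ev 𝕜 E _).continuous (ev 𝕜 E _).continuous

/-- the envelope -/
abbrev Env : Type _ := L1 𝕜 (Ix E) ⧸ Ker 𝕜 E

open Classical in
/-- the generating points -/
noncomputable def pt (i : Ix E) : Env 𝕜 E := Submodule.Quotient.mk (lp.single 1 i (1 : 𝕜))

theorem norm_pt_le (i : Ix E) : ‖pt 𝕜 E i‖ ≤ 1 := by
  classical
  refine (Submodule.Quotient.norm_mk_le _ _).trans ?_
  rw [lp.norm_single (by norm_num), norm_one]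

open Classical in
theorem norm_apply_le {F : Type*} [NormedAddCommGroup F] [NormedSpace 𝕜 F]
    (T : Env 𝕜 E →L[𝕜] F) {C : ℝ} (hC : 0 ≤ C) (h : ∀ i, ‖T (pt 𝕜 E i)‖ ≤ C) (x : Env 𝕜 E) :
    ‖T x‖ ≤ C * ‖x‖ := by
  have h0 : ∀ a : L1 𝕜 (Ix E), ‖(Submodule.Quotient.mk a : Env 𝕜 E)‖ ≤ 1 * ‖a‖ := fun a => by
    rw [one_mul]; exact Submodule.Quotient.norm_mk_le _ a
  let Q : L1 𝕜 (Ix E) →L[𝕜] Env 𝕜 E := LinearMap.mkContinuous (Ker 𝕜 E).mkQ 1 h0
  have h1 := norm_le_of_basis (T.comp Q) h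
  apply le_of_forall_pos_le_add
  intro ε hε
  obtain ⟨a, rfl, ha⟩ := Submodule.Quotient.norm_mk_lt x (show 0 < ε / (C + 1) by positivity)
  have h2 : ‖T (Submodule.Quotient.mk a : Env 𝕜 E)‖ ≤ C * ‖a‖ := h1 a
  refine h2.trans ?_
  have h3 : C * ‖a‖ ≤ C * (‖(Submodule.Quotient.mk a : Env 𝕜 E)‖ + ε / (C + 1)) :=
    mul_le_mul_of_nonneg_left ha.le hC
  have h4 : C * (ε / (C + 1)) ≤ ε := by
    rw [mul_div_assoc', div_le_iff₀ (by positivity)]
    nlinarith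
  linarith

/-- a sign -/
def sgn (b : Bool) : 𝕜 := if b then 1 else -1

/-- the functional on `ℓ₁` -/
noncomputable def fn (g : E →L[𝕜] 𝕜) (i : Ix E) : L1 𝕜 (Ix E) →L[𝕜] 𝕜 :=
  (2 : 𝕜)⁻¹ • (g.comp (Phi 𝕜 E) + sgn 𝕜 i.2 • (ev 𝕜 E (i.1, true) - ev 𝕜 E (i.1, false)))

theorem fn_apply (g : E →L[𝕜] 𝕜) (i : Ix E) (a : L1 𝕜 (Ix E)) :
    fn 𝕜 E g i a = (2 : 𝕜)⁻¹ * (g (Phi 𝕜 E a) + sgn 𝕜 i.2 * (a (i.1, true) - a (i.1, false))) :=
  rfl

open Classical in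
theorem fn_single (g : E →L[𝕜] 𝕜) (i j : Ix E) : fn 𝕜 E g i (lp.single 1 j (1 : 𝕜)) =
    (2 : 𝕜)⁻¹ * (g j.1.1 + if j.1 = i.1 then sgn 𝕜 i.2 * sgn 𝕜 j.2 else 0) := by
  rw [fn_apply]
  have h1 : Phi 𝕜 E (lp.single 1 j (1 : 𝕜)) = j.1.1 := by
    show ofBasis _ _ _ = _
    rw [ofBasis_single, one_smul]
  rw [h1]
  congr 2
  have h2 : ∀ k : Ix E, (lp.single 1 j (1 : 𝕜) : L1 𝕜 (Ix E)) k = if k = j then 1 else 0 := by
    intro k
    rw [lp.single_apply, Pi.single_apply]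
  rw [h2, h2]
  obtain ⟨j1, j2⟩ := j
  obtain ⟨i1, i2⟩ := i
  simp only [Prod.mk.injEq]
  by_cases h : j1 = i1
  · subst h
    cases j2 <;> simp [sgn]
  · have h' : ¬ i1 = j1 := fun h2 => h h2.symm
    simp [h, h']

open Classical in
theorem fn_self (g : E →L[𝕜] 𝕜) (i : Ix E) (hg : g i.1.1 = 1) :
    fn 𝕜 E g i (lp.single 1 i (1 : 𝕜)) = 1 := by
  rw [fn_single, hg, if_pos rfl]
  have h1 : sgn 𝕜 i.2 * sgn 𝕜 i.2 = 1 := by
    cases i.2 <;> simp [sgn]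
  rw [h1]
  norm_num

open Classical in
theorem fn_ne (g : E →L[𝕜] 𝕜) (hg' : ‖g‖ ≤ 1) (i j : Ix E) (hij : j ≠ i) (hg : g i.1.1 = 1) :
    ‖fn 𝕜 E g i (lp.single 1 j (1 : 𝕜))‖ ≤ 1 / 2 := by
  rw [fn_single]
  by_cases h : j.1 = i.1
  · have h1 : sgn 𝕜 i.2 * sgn 𝕜 j.2 = -1 := by
      have h2 : i.2 ≠ j.2 := fun h2 => hij (Prod.ext h h2.symm)
      cases h3 : i.2 <;> cases h4 : j.2 <;> simp_all [sgn]
    rw [if_pos h, h1, h, hg]
    norm_num
  · rw [if_neg h, add_zero, norm_mul, norm_inv, RCLike.norm_ofNat]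
    have h1 : ‖g j.1.1‖ ≤ 1 := by
      refine (g.le_opNorm _).trans ?_
      rw [j.1.2, mul_one]
      exact hg'
    linarith

open Classical in
theorem fn_bound (g : E →L[𝕜] 𝕜) (hg' : ‖g‖ ≤ 1) (i : Ix E) (hg : g i.1.1 = 1)
    (a : L1 𝕜 (Ix E)) : ‖fn 𝕜 E g i a‖ ≤ 1 * ‖a‖ := by
  apply norm_le_of_basis
  intro j
  by_cases h : j = i
  · rw [h, fn_self 𝕜 E g i hg, norm_one]
  · exact (fn_ne 𝕜 E g hg' i j h hg).trans (by norm_num)

theorem fn_ker (g : E →L[𝕜] 𝕜) (i : Ix E) (a : L1 𝕜 (Ix E)) (ha : a ∈ Ker 𝕜 E) :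
    fn 𝕜 E g i a = 0 := by
  rw [fn_apply]
  have h1 : a (i.1, true) = a (i.1, false) := ha.2 i.1
  rw [ha.1, h1, map_zero, sub_self, mul_zero, add_zero, mul_zero]

/-- **Property alpha.** -/
theorem exists_phi (i : Ix E) : ∃ f : Env 𝕜 E →L[𝕜] 𝕜, ‖f‖ ≤ 1 ∧ f (pt 𝕜 E i) = 1 ∧
    ∀ j, j ≠ i → ‖f (pt 𝕜 E j)‖ ≤ 1 / 2 := by
  classical
  have h0 : ‖i.1.1‖ ≠ 0 := by
    rw [i.1.2]; exact one_ne_zero
  obtain ⟨g, hg1, hg2⟩ := exists_dual_vector 𝕜 i.1.1 h0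
  rw [i.1.2, RCLike.ofReal_one] at hg2
  refine ⟨lift (Ker 𝕜 E) (fn 𝕜 E g i) (fn_ker 𝕜 E g i) zero_le_one
    (fn_bound 𝕜 E g hg1.le i hg2), norm_lift_le _ _ _ _ _, ?_, fun j hj => ?_⟩
  · exact fn_self 𝕜 E g i hg2
  · exact fn_ne 𝕜 E g hg1.le i j hj hg2

/-- density of the norm attaining operators from the envelope -/
theorem dense {F : Type*} [NormedAddCommGroup F] [NormedSpace 𝕜 F] (T : Env 𝕜 E →L[𝕜] F)
    (hT : T ≠ 0) {ε : ℝ} (hε : 0 < ε) :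
    ∃ S : Env 𝕜 E →L[𝕜] F, ‖S - T‖ ≤ ε ∧ ∃ x, ‖x‖ = 1 ∧ ‖S x‖ = ‖S‖ := by
  classical
  have hM : 0 < ‖T‖ := by
    refine (norm_nonneg T).lt_of_ne' (fun h => hT ?_)
    ext x
    have h1 := T.le_opNorm x
    rw [h, zero_mul] at h1
    exact norm_le_zero_iff.mp h1
  set M := ‖T‖ with hMd
  -- the size of the perturbation
  set e : ℝ := min 1 (ε / M) with he
  have he0 : 0 < e := lt_min one_pos (by positivity)
  have he1 : e ≤ 1 := min_le_left _ _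
  have heM : e * M ≤ ε := by
    have : e ≤ ε / M := min_le_right _ _
    rwa [le_div_iff₀ hM] at this
  -- a point at which the norm is almost attained
  have hex : ∃ i, (1 - e / 4) * M < ‖T (pt 𝕜 E i)‖ := by
    by_contra h
    push Not at h
    have h1 : ‖T‖ ≤ (1 - e / 4) * M :=
      T.opNorm_le_bound (by nlinarith) (norm_apply_le 𝕜 E T (by nlinarith) h)
    rw [← hMd] at h1
    nlinarith
  obtain ⟨i, hi⟩ := hex
  obtain ⟨f, hf1, hf2, hf3⟩ := exists_phi 𝕜 E i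
  let S : Env 𝕜 E →L[𝕜] F := T + (e : 𝕜) • f.smulRight (T (pt 𝕜 E i))
  have hS : ∀ x, S x = T x + (e : 𝕜) • (f x • T (pt 𝕜 E i)) := fun x => rfl
  have hTi : ‖T (pt 𝕜 E i)‖ ≤ M := by
    refine (T.le_opNorm _).trans ?_
    rw [← hMd]
    exact mul_le_of_le_one_right hM.le (norm_pt_le 𝕜 E i)
  have hen : ‖(e : 𝕜)‖ = e := by rw [RCLike.norm_ofReal, abs_of_pos he0]
  have hSi : ‖S (pt 𝕜 E i)‖ = (1 + e) * ‖T (pt 𝕜 E i)‖ := by
    rw [hS, hf2, one_smul]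
    have h1 : T (pt 𝕜 E i) + (e : 𝕜) • T (pt 𝕜 E i) = ((1 + e : ℝ) : 𝕜) • T (pt 𝕜 E i) := by
      rw [RCLike.ofReal_add, RCLike.ofReal_one, add_smul, one_smul]
    rw [h1, norm_smul, RCLike.norm_ofReal, abs_of_pos (by linarith)]
  have hSj : ∀ j, ‖S (pt 𝕜 E j)‖ ≤ ‖S (pt 𝕜 E i)‖ := by
    intro j
    by_cases hj : j = i
    · rw [hj]
    · rw [hSi, hS]
      have h1 : ‖T (pt 𝕜 E j)‖ ≤ M := by
        refine (T.le_opNorm _).trans ?_
        rw [← hMd]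
        exact mul_le_of_le_one_right hM.le (norm_pt_le 𝕜 E j)
      have h2 : ‖(e : 𝕜) • (f (pt 𝕜 E j) • T (pt 𝕜 E i))‖ ≤ e * (1 / 2 * M) := by
        rw [norm_smul, norm_smul, hen]
        apply mul_le_mul_of_nonneg_left _ he0.le
        exact mul_le_mul (hf3 j hj) hTi (norm_nonneg _) (by norm_num)
      have h3 : ‖T (pt 𝕜 E j) + (e : 𝕜) • (f (pt 𝕜 E j) • T (pt 𝕜 E i))‖ ≤
          M + e * (1 / 2 * M) := (norm_add_le _ _).trans (add_le_add h1 h2)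
      refine h3.trans ?_
      have h4 : (1 + e) * ((1 - e / 4) * M) ≤ (1 + e) * ‖T (pt 𝕜 E i)‖ :=
        mul_le_mul_of_nonneg_left hi.le (by linarith)
      have h5 : M + e * (1 / 2 * M) ≤ (1 + e) * ((1 - e / 4) * M) := by
        have h6 : 0 ≤ e * (1 - e) := mul_nonneg he0.le (by linarith)
        nlinarith [mul_nonneg h6 hM.le]
      exact h5.trans h4
  have hSn : ‖S‖ ≤ ‖S (pt 𝕜 E i)‖ :=
    S.opNorm_le_bound (norm_nonneg _) (norm_apply_le 𝕜 E S (norm_nonneg _) hSj)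
  have hpt : ‖pt 𝕜 E i‖ = 1 := by
    apply le_antisymm (norm_pt_le 𝕜 E i)
    have h1 := f.le_opNorm (pt 𝕜 E i)
    rw [hf2, norm_one] at h1
    exact h1.trans (mul_le_of_le_one_left (norm_nonneg _) hf1)
  refine ⟨S, ?_, pt 𝕜 E i, hpt, ?_⟩
  · apply (S - T).opNorm_le_bound hε.le
    intro x
    have h1 : (S - T) x = (e : 𝕜) • (f x • T (pt 𝕜 E i)) := by
      show S x - T x = _
      rw [hS]
      abel
    rw [h1, norm_smul, norm_smul, hen]
    have h2 : ‖f x‖ ≤ ‖x‖ :=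
      (f.le_opNorm x).trans (mul_le_of_le_one_left (norm_nonneg _) hf1)
    have h3 : ‖f x‖ * ‖T (pt 𝕜 E i)‖ ≤ ‖x‖ * M :=
      mul_le_mul h2 hTi (norm_nonneg _) (norm_nonneg _)
    have h4 : e * (‖f x‖ * ‖T (pt 𝕜 E i)‖) ≤ e * (‖x‖ * M) :=
      mul_le_mul_of_nonneg_left h3 he0.le
    have h5 : e * (‖x‖ * M) = (e * M) * ‖x‖ := by ring
    rw [h5] at h4
    exact h4.trans (mul_le_mul_of_nonneg_right heM (norm_nonneg _))
  · apply le_antisymm _ hSn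
    refine (S.le_opNorm _).trans ?_
    rw [hpt, mul_one]

/-! ### The copy of `E` -/

theorem Phi_bound (a : L1 𝕜 (Ix E)) : ‖Phi 𝕜 E a‖ ≤ 1 * ‖a‖ := by
  classical
  apply norm_le_of_basis
  intro i
  show ‖ofBasis _ _ _‖ ≤ 1
  rw [ofBasis_single, one_smul]
  exact i.1.2.le

/-- the projection onto `E` -/
noncomputable def Pr : Env 𝕜 E →L[𝕜] E :=
  lift (Ker 𝕜 E) (Phi 𝕜 E) (fun _ ha => ha.1) zero_le_one (Phi_bound 𝕜 E)

theorem Pr_mk (a : L1 𝕜 (Ix E)) : Pr 𝕜 E (Submodule.Quotient.mk a) = Phi 𝕜 E a := rfl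

theorem norm_Pr_le : ‖Pr 𝕜 E‖ ≤ 1 := norm_lift_le _ _ _ _ _

theorem exists_rep (x : E) : ∃ a : L1 𝕜 (Ix E), Phi 𝕜 E a = x ∧
    (∀ g, ev 𝕜 E (g, true) a = ev 𝕜 E (g, false) a) ∧ ‖a‖ ≤ ‖x‖ := by
  classical
  rcases eq_or_ne x 0 with rfl | hx
  · exact ⟨0, map_zero _, fun g => by rw [map_zero, map_zero], by rw [norm_zero, norm_zero]⟩
  have hx' : ‖x‖ ≠ 0 := norm_ne_zero_iff.mpr hx
  let u : {x : E // ‖x‖ = 1} := ⟨((‖x‖ : ℝ) : 𝕜)⁻¹ • x, by
    rw [norm_smul, norm_inv, RCLike.norm_ofReal, abs_norm, inv_mul_cancel₀ hx']⟩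
  have hu : ((‖x‖ : ℝ) : 𝕜) • (u : E) = x := by
    show ((‖x‖ : ℝ) : 𝕜) • ((‖x‖ : ℝ) : 𝕜)⁻¹ • x = x
    rw [smul_smul, mul_inv_cancel₀ (by exact_mod_cast hx'), one_smul]
  let c : 𝕜 := ((‖x‖ / 2 : ℝ) : 𝕜)
  refine ⟨lp.single 1 (u, true) c + lp.single 1 (u, false) c, ?_, ?_, ?_⟩
  · rw [map_add]
    show ofBasis _ _ _ + ofBasis _ _ _ = x
    rw [ofBasis_single, ofBasis_single, ← add_smul]
    have h1 : c + c = ((‖x‖ : ℝ) : 𝕜) := by
      show ((‖x‖ / 2 : ℝ) : 𝕜) + ((‖x‖ / 2 : ℝ) : 𝕜) = _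
      rw [← RCLike.ofReal_add, add_halves]
    rw [h1]
    exact hu
  · intro g
    rw [map_add, map_add]
    have h2 : ∀ (j k : Ix E), ev 𝕜 E k (lp.single 1 j c) = if k = j then c else 0 := by
      intro j k
      rw [ev_apply, lp.single_apply, Pi.single_apply]
    rw [h2, h2, h2, h2]
    by_cases h : g = u
    · subst h; simp
    · simp [h]
  · refine (norm_add_le _ _).trans ?_
    rw [lp.norm_single (by norm_num), lp.norm_single (by norm_num)]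
    have h1 : ‖c‖ = ‖x‖ / 2 := by
      show ‖((‖x‖ / 2 : ℝ) : 𝕜)‖ = _
      rw [RCLike.norm_ofReal, abs_of_nonneg (by positivity)]
    rw [h1, add_halves]

/-- a representative -/
noncomputable def rep (x : E) : L1 𝕜 (Ix E) := (exists_rep 𝕜 E x).choose

theorem Phi_rep (x : E) : Phi 𝕜 E (rep 𝕜 E x) = x := (exists_rep 𝕜 E x).choose_spec.1

theorem ev_rep (x : E) (g : {x : E // ‖x‖ = 1}) :
    ev 𝕜 E (g, true) (rep 𝕜 E x) = ev 𝕜 E (g, false) (rep 𝕜 E x) :=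
  (exists_rep 𝕜 E x).choose_spec.2.1 g

theorem norm_rep_le (x : E) : ‖rep 𝕜 E x‖ ≤ ‖x‖ := (exists_rep 𝕜 E x).choose_spec.2.2

/-- the isometric embedding of `E` into the envelope -/
noncomputable def J : E →ₗᵢ[𝕜] Env 𝕜 E where
  toFun := fun x => Submodule.Quotient.mk (rep 𝕜 E x)
  map_add' := fun x y => by
    rw [← Submodule.Quotient.mk_add]
    rw [Submodule.Quotient.eq]
    refine ⟨?_, fun g => ?_⟩
    · rw [map_sub, map_add, Phi_rep, Phi_rep, Phi_rep, sub_self]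
    · rw [map_sub, map_add, map_sub, map_add, ev_rep, ev_rep, ev_rep]
  map_smul' := fun c x => by
    rw [RingHom.id_apply, ← Submodule.Quotient.mk_smul]
    rw [Submodule.Quotient.eq]
    refine ⟨?_, fun g => ?_⟩
    · rw [map_sub, map_smul, Phi_rep, Phi_rep, sub_self]
    · rw [map_sub, map_smul, map_sub, map_smul, ev_rep, ev_rep]
  norm_map' := fun x => by
    apply le_antisymm
    · exact (Submodule.Quotient.norm_mk_le _ _).trans (norm_rep_le 𝕜 E x)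
    · have h1 := (Pr 𝕜 E).le_opNorm (Submodule.Quotient.mk (rep 𝕜 E x))
      rw [Pr_mk, Phi_rep] at h1
      exact h1.trans (mul_le_of_le_one_left (norm_nonneg _) (norm_Pr_le 𝕜 E))

theorem Pr_J (x : E) : Pr 𝕜 E (J 𝕜 E x) = x := Phi_rep 𝕜 E x

end Envelope

end Pool.Agent.V11102.PA
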